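import Mathlib
import Pool.Agent.Helper43.RK.St

set_option autoImplicit false

namespace Pool.Agent.Helper95.RK

open Pool.Agent.Helper43.RK

section

variable {R : Type} [CommRing R] {G : Type} [Group G] {D : Dt R G}

theorem inL_one : D.InL (1 : G) :=
  ⟨fun r => ⟨r, by group⟩, fun r => ⟨r, by group⟩, fun r => ⟨r, by group⟩, fun r => ⟨r, by group⟩⟩

theorem inL_mul {g h : G} (hg : D.InL g) (hh : D.InL h) : D.InL (g * h) := by
  refine ⟨fun r => ?_, fun r => ?_, fun r => ?_, fun r => ?_⟩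
  · obtain ⟨r1, h1⟩ := hg.a1 r
    obtain ⟨r2, h2⟩ := hh.a1 r1
    exact ⟨r2, by rw [← h2, ← h1]; group⟩
  · obtain ⟨r1, h1⟩ := hh.a2 r
    obtain ⟨r2, h2⟩ := hg.a2 r1
    exact ⟨r2, by rw [← h2, ← h1]; group⟩
  · obtain ⟨r1, h1⟩ := hg.b1 r
    obtain ⟨r2, h2⟩ := hh.b1 r1
    exact ⟨r2, by rw [← h2, ← h1]; group⟩
  · obtain ⟨r1, h1⟩ := hh.b2 r
    obtain ⟨r2, h2⟩ := hg.b2 r1
    exact ⟨r2, by rw [← h2, ← h1]; group⟩

theorem inL_inv {g : G} (hg : D.InL g) : D.InL g⁻¹ := by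
  refine ⟨fun r => ?_, fun r => ?_, fun r => ?_, fun r => ?_⟩
  · rw [inv_inv]; exact hg.a2 r
  · rw [inv_inv]; exact hg.a1 r
  · rw [inv_inv]; exact hg.b2 r
  · rw [inv_inv]; exact hg.b1 r

theorem inL_of_invol {t : G} (ht : t * t = 1) (ha : ∀ r, ∃ r', t * D.a r * t = D.a r')
    (hb : ∀ r, ∃ r', t * D.b r * t = D.b r') : D.InL t := by
  have h : t⁻¹ = t := inv_eq_of_mul_eq_one_left ht
  refine ⟨fun r => ?_, fun r => ?_, fun r => ?_, fun r => ?_⟩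
  · rw [h]; exact ha r
  · rw [h]; exact ha r
  · rw [h]; exact hb r
  · rw [h]; exact hb r

theorem inL_Yb : D.InL D.Yb :=
  ⟨fun r => ⟨_, D.aYb r⟩, fun r => ⟨_, D.aYbinv r⟩, fun r => ⟨_, D.bYb r⟩, fun r => ⟨_, D.bYbinv r⟩⟩

/-- membership in `A L B A` -/
def InM (D : Dt R G) (g : G) : Prop :=
  ∃ (r1 r2 r3 : R) (l : G), D.InL l ∧ g = D.a r1 * l * D.b r2 * D.a r3

theorem inM_one : InM D (1 : G) :=
  ⟨0, 0, 0, 1, inL_one, by rw [D.a0, D.b0]; group⟩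

theorem inM_mul_a {g : G} (hg : InM D g) (r : R) : InM D (g * D.a r) := by
  obtain ⟨r1, r2, r3, l, hl, rfl⟩ := hg
  exact ⟨r1, r2, r3 + r, l, hl, by rw [D.a_add]; group⟩

theorem inM_mul_L {g : G} (hg : InM D g) {t : G} (ht : D.InL t) : InM D (g * t) := by
  obtain ⟨r1, r2, r3, l, hl, rfl⟩ := hg
  obtain ⟨r2', h2⟩ := ht.b1 r2
  obtain ⟨r3', h3⟩ := ht.a1 r3
  refine ⟨r1, r2', r3', l * t, inL_mul hl ht, ?_⟩
  rw [← h2, ← h3]; group

theorem swap_ab (x y : G) (hx : x * x = 1) (hy : y * y = 1) :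
    y * x = x * (x * y * x * y) * y := by
  calc y * x = 1 * y * x * 1 := by group
    _ = (x * x) * y * x * (y * y) := by rw [hx, hy]
    _ = x * (x * y * x * y) * y := by group

theorem inM_mul_bfix (hRS : ∀ r : R, ∃ α β : R, D.bar α = α ∧ D.bar β = β ∧ r = α + β * (D.y : R))
    (hRSb : ∀ r : R, ∃ α β : R, D.bar α = α ∧ D.bar β = β ∧ r = α + β * (D.yb : R))
    (htauL : ∀ l, D.bar l = l → D.InL (D.tau l)) (hXL : ∀ l, D.bar l = l → D.InL (D.X l))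
    (hcomm : ∀ l m, D.bar l = l → D.bar m = m → D.a m * D.b l * D.a m * D.b l = D.tau (l * m))
    (hXcomm : ∀ l, D.bar l = l → ∀ m, D.bar m = m → D.a (m * (D.y : R)) * D.b (l * (D.yb : R)) *
      D.a (m * (D.y : R)) * D.b (l * (D.yb : R)) = D.X (l * m))
    (hH : ∀ h ∈ D.H1, ∃ (α β γ : R) (t0 : G), D.InL t0 ∧ D.bar α = α ∧
      h = D.a (α * (D.y : R)) * D.b β * D.a γ * t0)
    {g : G} (hg : InM D g) (μ : R) (hμ : D.bar μ = μ) : InM D (g * D.b μ) := by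
  obtain ⟨r1, r2, r3, l, hl, rfl⟩ := hg
  obtain ⟨x1, x2, hx1, hx2, hr3⟩ := hRS r3
  obtain ⟨z2, z1, hz2, hz1, hr2⟩ := hRSb r2
  -- the element of `H1`
  have hmem : D.b z2 * D.a (x2 * (D.y : R)) * D.b μ ∈ D.H1 := by
    have hA : D.a (x2 * (D.y : R)) ∈ D.H1 := Subgroup.subset_closure (Or.inl ⟨x2, hx2, rfl⟩)
    have hB : D.b z2 ∈ D.H1 := Subgroup.subset_closure (Or.inr ⟨z2, hz2, rfl⟩)
    have hC : D.b μ ∈ D.H1 := Subgroup.subset_closure (Or.inr ⟨μ, hμ, rfl⟩)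
    exact mul_mem (mul_mem hB hA) hC
  obtain ⟨α, β, γ, t0, ht0, hα, hh⟩ := hH _ hmem
  -- `a_{x1} b_μ = b_μ a_{x1} τ`
  have hs1 : D.a x1 * D.b μ = D.b μ * D.a x1 * D.tau (μ * x1) := by
    rw [← hcomm μ x1 hμ hx1]
    calc D.a x1 * D.b μ = D.b μ * D.b μ * D.a x1 * D.b μ := by rw [D.bb]; group
      _ = D.b μ * (D.a x1 * D.a x1) * D.b μ * D.a x1 * D.b μ := by rw [D.aa]; group
      _ = _ := by group
  have hs2 : D.b (z1 * (D.yb : R)) * D.a (α * (D.y : R)) =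
      D.a (α * (D.y : R)) * D.X (z1 * α) * D.b (z1 * (D.yb : R)) := by
    rw [← hXcomm z1 hz1 α hα]
    exact swap_ab _ _ (D.aa _) (D.bb _)
  obtain ⟨r', hr'⟩ := hl.a2 (α * (D.y : R))
  have hXz : D.InL (D.X (z1 * α)) := hXL _ (by rw [map_mul, hz1, hα])
  have htz : D.InL (D.tau (μ * x1)) := htauL _ (by rw [map_mul, hμ, hx1])
  have hbase : InM D (D.a (r1 + r') * (l * D.X (z1 * α)) * D.b (z1 * (D.yb : R) + β) * D.a γ) :=
    ⟨r1 + r', z1 * (D.yb : R) + β, γ, _, inL_mul hl hXz, rfl⟩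
  have hfin := inM_mul_L (inM_mul_a (inM_mul_L hbase ht0) x1) htz
  have heq : D.a r1 * l * D.b r2 * D.a r3 * D.b μ =
      D.a (r1 + r') * (l * D.X (z1 * α)) * D.b (z1 * (D.yb : R) + β) * D.a γ * t0 * D.a x1 *
        D.tau (μ * x1) := by
    have hr2' : D.b r2 = D.b (z1 * (D.yb : R)) * D.b z2 := by rw [hr2, add_comm, D.b_add]
    have hr3' : D.a r3 = D.a (x2 * (D.y : R)) * D.a x1 := by rw [hr3, add_comm, D.a_add]
    calc D.a r1 * l * D.b r2 * D.a r3 * D.b μ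
        = D.a r1 * l * D.b (z1 * (D.yb : R)) * D.b z2 * D.a (x2 * (D.y : R)) * (D.a x1 * D.b μ) := by
          rw [hr2', hr3']; group
      _ = D.a r1 * l * D.b (z1 * (D.yb : R)) * (D.b z2 * D.a (x2 * (D.y : R)) * D.b μ) * D.a x1 *
            D.tau (μ * x1) := by rw [hs1]; group
      _ = D.a r1 * l * (D.b (z1 * (D.yb : R)) * D.a (α * (D.y : R))) * D.b β * D.a γ * t0 * D.a x1 *
            D.tau (μ * x1) := by rw [hh]; group
      _ = D.a r1 * (l * D.a (α * (D.y : R)) * l⁻¹) * l * D.X (z1 * α) *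
            (D.b (z1 * (D.yb : R)) * D.b β) * D.a γ * t0 * D.a x1 * D.tau (μ * x1) := by
          rw [hs2]; group
      _ = _ := by rw [hr', D.a_add, D.b_add]; group
  rw [heq]
  exact hfin

end

theorem hRM : StRM := by
  intro hRS1 hRX R _ _ G _ D hn hgd hcomm hH g hg
  obtain ⟨-, -, hRS, hRSb⟩ := hRS1 R G D
  have hX := hRX R G D hn hgd hcomm
  have htt : ∀ l, D.tau l * D.tau l = 1 := by
    intro l
    calc D.tau l * D.tau l = D.n * D.a l * (D.n * D.n) * D.a l * D.n := by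
          simp only [Dt.tau]; group
      _ = D.n * (D.a l * D.a l) * D.n := by rw [hn]; group
      _ = 1 := by rw [D.aa, mul_one, hn]
  have htauL : ∀ l, D.bar l = l → D.InL (D.tau l) := fun l hl =>
    inL_of_invol (htt l) (fun r => ⟨_, (hgd l hl).ta r⟩) (fun r => ⟨_, (hgd l hl).tb r⟩)
  have hXL : ∀ l, D.bar l = l → D.InL (D.X l) := fun l hl =>
    inL_of_invol (hX l hl).1 (fun r => ⟨_, (hX l hl).2.2.1 r⟩) (fun r => ⟨_, (hX l hl).2.2.2.1 r⟩)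
  have hXcomm : ∀ l, D.bar l = l → ∀ m, D.bar m = m → D.a (m * (D.y : R)) * D.b (l * (D.yb : R)) *
      D.a (m * (D.y : R)) * D.b (l * (D.yb : R)) = D.X (l * m) := fun l hl => (hX l hl).2.2.2.2
  have hbfix : ∀ {g : G}, InM D g → ∀ μ, D.bar μ = μ → InM D (g * D.b μ) := fun hg μ hμ =>
    inM_mul_bfix hRS hRSb htauL hXL hcomm hXcomm hH hg μ hμ
  have hball : ∀ {g : G}, InM D g → ∀ r, InM D (g * D.b r) := by
    intro g hg r
    obtain ⟨α, β, hα, hβ, hr⟩ := hRSb r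
    have h1 : InM D (g * D.b α) := hbfix hg α hα
    have h2 := inM_mul_L (hbfix (inM_mul_L h1 inL_Yb) β hβ) (inL_inv inL_Yb)
    have he : g * D.b r = g * D.b α * D.Yb * D.b β * D.Yb⁻¹ := by
      rw [hr, D.b_add, mul_comm β, ← D.bYbinv]; group
    rw [he]
    exact h2
  have key : InM D g := by
    unfold Dt.G0 at hg
    refine Subgroup.closure_induction_right (p := fun x _ => InM D x) inM_one ?_ ?_ hg
    · rintro x _ y hy hx
      rcases hy with ⟨r, rfl⟩ | ⟨r, rfl⟩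
      · exact inM_mul_a hx r
      · exact hball hx r
    · rintro x _ y hy hx
      rcases hy with ⟨r, rfl⟩ | ⟨r, rfl⟩
      · rw [D.ainv]; exact inM_mul_a hx r
      · rw [D.binv]; exact hball hx r
  exact key

end Pool.Agent.Helper95.RK
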