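import Mathlib
import Pool.Agent.Helper43.RK.StT

set_option autoImplicit false

namespace Pool.Agent.Helper95.RK

open Pool.Agent.Helper43.RK Matrix

section

variable {k : Type} [Field k]

theorem mA_mul (α β α' β' : k) : mA α β * mA α' β' = mA (α + α') (β + β') := by
  ext i j
  fin_cases i <;> fin_cases j <;> simp [mA, Matrix.mul_apply, Fin.sum_univ_three, add_comm]

theorem mB_mul (α β α' β' : k) : mB α β * mB α' β' = mB (α + α') (β + β') := by
  ext i j
  fin_cases i <;> fin_cases j <;> simp [mB, Matrix.mul_apply, Fin.sum_univ_three]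

theorem mA_zero : mA (0 : k) 0 = 1 := by
  ext i j
  fin_cases i <;> fin_cases j <;> simp [mA]

theorem mB_zero : mB (0 : k) 0 = 1 := by
  ext i j
  fin_cases i <;> fin_cases j <;> simp [mB]

variable [CharP k 2]

/-- `a(α + β y)` as an invertible matrix -/
def gA (α β : k) : GL (Fin 3) k where
  val := mA α β
  inv := mA α β
  val_inv := by rw [mA_mul, CharTwo.add_self_eq_zero, CharTwo.add_self_eq_zero, mA_zero]
  inv_val := by rw [mA_mul, CharTwo.add_self_eq_zero, CharTwo.add_self_eq_zero, mA_zero]

/-- the opposite transvections as invertible matrices -/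
def gB (α β : k) : GL (Fin 3) k where
  val := mB α β
  inv := mB α β
  val_inv := by rw [mB_mul, CharTwo.add_self_eq_zero, CharTwo.add_self_eq_zero, mB_zero]
  inv_val := by rw [mB_mul, CharTwo.add_self_eq_zero, CharTwo.add_self_eq_zero, mB_zero]

theorem gA_mul (α β α' β' : k) : gA α β * gA α' β' = gA (α + α') (β + β') :=
  Units.ext (mA_mul α β α' β')

theorem gA_zero : gA (0 : k) 0 = 1 := Units.ext mA_zero

theorem Y_gA (d : k) (Y : GL (Fin 3) k) (hY : (Y : Matrix (Fin 3) (Fin 3) k) = mY d) (α β : k) :
    Y * gA α β = gA (d * β) (α + β) * Y := by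
  apply Units.ext
  change (Y : Matrix (Fin 3) (Fin 3) k) * mA α β = mA (d * β) (α + β) * (Y : Matrix (Fin 3) (Fin 3) k)
  rw [hY]
  ext i j
  fin_cases i <;> fin_cases j <;> simp [mA, mY, Matrix.mul_apply, Fin.sum_univ_three]

theorem w_gA (α β : k) : (mJ : Matrix (Fin 3) (Fin 3) k) * (gB β (α + β) : Matrix (Fin 3) (Fin 3) k) =
    (((gA α β)⁻¹ : GL (Fin 3) k) : Matrix (Fin 3) (Fin 3) k).transpose * mJ := by
  change (mJ : Matrix (Fin 3) (Fin 3) k) * mB β (α + β) = (mA α β).transpose * mJ
  ext i j
  fin_cases i <;> fin_cases j <;> simp [mA, mB, mJ, Matrix.mul_apply, Fin.sum_univ_three]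

set_option maxHeartbeats 4000000 in
theorem diag_dec {i j : Fin 3} (hij : i ≠ j) (c : k) (hc : c ≠ 0) :
    SpecialLinearGroup.diag2n hij c hc =
      SpecialLinearGroup.transvection hij c * SpecialLinearGroup.transvection hij.symm (-c⁻¹) *
      SpecialLinearGroup.transvection hij c * SpecialLinearGroup.transvection hij (-1) *
      SpecialLinearGroup.transvection hij.symm 1 * SpecialLinearGroup.transvection hij (-1) := by
  ext a b
  fin_cases i <;> fin_cases j <;> first
    | exact absurd rfl hij
    | (fin_cases a <;> fin_cases b <;>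
        simp [SpecialLinearGroup.diag2n_coe, SpecialLinearGroup.transvection_coe, Matrix.mul_add,
          Matrix.add_mul, mul_inv_cancel₀ hc, inv_mul_cancel₀ hc])

theorem tc_general (n : ℕ) (d : k) (hd : ∀ S : Subring k, d ∈ S → S = ⊤) (T : Type) [Group T] (τ : Tg n d T)
    (A Y : GL (Fin 3) k) (hA : (A : Matrix (Fin 3) (Fin 3) k) = mA 1 0)
    (hY : (Y : Matrix (Fin 3) (Fin 3) k) = mY d) (H : Subgroup T) (hAH : τ.κ A ∈ H) (hYH : τ.κ Y ∈ H)
    (hwH : τ.w ∈ H) (M : SpecialLinearGroup (Fin 3) k) : τ.κ (M : GL (Fin 3) k) ∈ H := by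
  have hAg : A = gA (1 : k) 0 := Units.ext hA
  -- closure properties of `E`
  have E10 : τ.κ (gA (1 : k) 0) ∈ H := hAg ▸ hAH
  have Eadd : ∀ α β α' β' : k, τ.κ (gA α β) ∈ H → τ.κ (gA α' β') ∈ H →
      τ.κ (gA (α + α') (β + β')) ∈ H := by
    intro α β α' β' h1 h2
    rw [← gA_mul, map_mul]
    exact mul_mem h1 h2
  have EY : ∀ α β : k, τ.κ (gA α β) ∈ H → τ.κ (gA (d * β) (α + β)) ∈ H := by
    intro α β h
    have h1 : gA (d * β) (α + β) = Y * gA α β * Y⁻¹ := by
      rw [Y_gA d Y hY]; group
    rw [h1, map_mul, map_mul, map_inv]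
    exact mul_mem (mul_mem hYH h) (inv_mem hYH)
  have Ed : ∀ α β : k, τ.κ (gA α β) ∈ H → τ.κ (gA (d * α) (d * β)) ∈ H := by
    intro α β h
    have h1 := EY _ _ h
    have h2 := EY _ _ h1
    have h3 := Eadd _ _ _ _ h1 h2
    have e1 : d * β + d * (α + β) = d * α := by
      have := CharTwo.add_self_eq_zero (d * β)
      linear_combination this
    have e2 : α + β + (d * β + (α + β)) = d * β := by
      have := CharTwo.add_self_eq_zero (α + β)
      linear_combination this
    rw [e1, e2] at h3
    exact h3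
  have E00 : τ.κ (gA (0 : k) 0) ∈ H := by
    rw [gA_zero, map_one]; exact one_mem H
  let S : Subring k :=
    { carrier := {x | ∀ α β : k, τ.κ (gA α β) ∈ H → τ.κ (gA (x * α) (x * β)) ∈ H}
      mul_mem' := by
        intro x y hx hy α β h
        have := hx _ _ (hy _ _ h)
        rw [← mul_assoc, ← mul_assoc] at this
        exact this
      one_mem' := by
        intro α β h
        rw [one_mul, one_mul]; exact h
      add_mem' := by
        intro x y hx hy α β h
        have := Eadd _ _ _ _ (hx _ _ h) (hy _ _ h)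
        rw [← add_mul, ← add_mul] at this
        exact this
      zero_mem' := by
        intro α β h
        rw [zero_mul, zero_mul]; exact E00
      neg_mem' := by
        intro x hx α β h
        rw [CharTwo.neg_eq]
        exact hx α β h }
  have hS : S = ⊤ := hd S (fun α β h => Ed α β h)
  have Emul : ∀ x α β : k, τ.κ (gA α β) ∈ H → τ.κ (gA (x * α) (x * β)) ∈ H := by
    intro x
    have : x ∈ S := by rw [hS]; exact Subring.mem_top x
    exact this
  have E01 : τ.κ (gA (0 : k) 1) ∈ H := by
    have := EY _ _ E10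
    rw [mul_zero, add_zero] at this
    exact this
  have Eall : ∀ α β : k, τ.κ (gA α β) ∈ H := by
    intro α β
    have h1 := Emul α _ _ E10
    have h2 := Emul β _ _ E01
    have h3 := Eadd _ _ _ _ h1 h2
    simp only [mul_one, mul_zero, add_zero, zero_add] at h3
    exact h3
  have Fall : ∀ α β : k, τ.κ (gB α β) ∈ H := by
    intro α β
    have h := τ.hw (gA (α + β) α) (gB α (α + β + α)) (w_gA _ _)
    have e : α + β + α = β := by
      have := CharTwo.add_self_eq_zero α
      linear_combination this
    rw [e] at h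
    rw [← h]
    exact mul_mem (mul_mem hwH (Eall _ _)) (inv_mem hwH)
  have hmulP : ∀ M N : SpecialLinearGroup (Fin 3) k, τ.κ (M : GL (Fin 3) k) ∈ H →
      τ.κ (N : GL (Fin 3) k) ∈ H → τ.κ ((M * N : SpecialLinearGroup (Fin 3) k) : GL (Fin 3) k) ∈ H := by
    intro M N hM hN
    rw [map_mul, map_mul]
    exact mul_mem hM hN
  have htr : ∀ (i j : Fin 3) (hij : i ≠ j) (c : k),
      τ.κ ((SpecialLinearGroup.transvection hij c : SpecialLinearGroup (Fin 3) k) : GL (Fin 3) k) ∈ H := by
    intro i j hij c
    fin_cases i <;> fin_cases j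
    · exact absurd rfl hij
    · have e : ((SpecialLinearGroup.transvection hij c : SpecialLinearGroup (Fin 3) k) : GL (Fin 3) k) =
          gA c 0 * gB 0 1 * gA c 0 * gB 0 1 := by
        apply Units.ext
        change (1 + Matrix.single _ _ c : Matrix (Fin 3) (Fin 3) k) = mA c 0 * mB 0 1 * mA c 0 * mB 0 1
        ext a b
        fin_cases a <;> fin_cases b <;>
          simp [mA, mB, Matrix.mul_apply, Fin.sum_univ_three, CharTwo.add_self_eq_zero]
      rw [e, map_mul, map_mul, map_mul]
      exact mul_mem (mul_mem (mul_mem (Eall _ _) (Fall _ _)) (Eall _ _)) (Fall _ _)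
    · have e : ((SpecialLinearGroup.transvection hij c : SpecialLinearGroup (Fin 3) k) : GL (Fin 3) k) =
          gA c 0 := by
        apply Units.ext
        change (1 + Matrix.single _ _ c : Matrix (Fin 3) (Fin 3) k) = mA c 0
        ext a b
        fin_cases a <;> fin_cases b <;> simp [mA]
      rw [e]; exact Eall _ _
    · have e : ((SpecialLinearGroup.transvection hij c : SpecialLinearGroup (Fin 3) k) : GL (Fin 3) k) =
          gA 0 c * gB 1 0 * gA 0 c * gB 1 0 := by
        apply Units.ext
        change (1 + Matrix.single _ _ c : Matrix (Fin 3) (Fin 3) k) = mA 0 c * mB 1 0 * mA 0 c * mB 1 0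
        ext a b
        fin_cases a <;> fin_cases b <;>
          simp [mA, mB, Matrix.mul_apply, Fin.sum_univ_three, CharTwo.add_self_eq_zero]
      rw [e, map_mul, map_mul, map_mul]
      exact mul_mem (mul_mem (mul_mem (Eall _ _) (Fall _ _)) (Eall _ _)) (Fall _ _)
    · exact absurd rfl hij
    · have e : ((SpecialLinearGroup.transvection hij c : SpecialLinearGroup (Fin 3) k) : GL (Fin 3) k) =
          gA 0 c := by
        apply Units.ext
        change (1 + Matrix.single _ _ c : Matrix (Fin 3) (Fin 3) k) = mA 0 c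
        ext a b
        fin_cases a <;> fin_cases b <;> simp [mA]
      rw [e]; exact Eall _ _
    · have e : ((SpecialLinearGroup.transvection hij c : SpecialLinearGroup (Fin 3) k) : GL (Fin 3) k) =
          gB c 0 := by
        apply Units.ext
        change (1 + Matrix.single _ _ c : Matrix (Fin 3) (Fin 3) k) = mB c 0
        ext a b
        fin_cases a <;> fin_cases b <;> simp [mB]
      rw [e]; exact Fall _ _
    · have e : ((SpecialLinearGroup.transvection hij c : SpecialLinearGroup (Fin 3) k) : GL (Fin 3) k) =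
          gB 0 c := by
        apply Units.ext
        change (1 + Matrix.single _ _ c : Matrix (Fin 3) (Fin 3) k) = mB 0 c
        ext a b
        fin_cases a <;> fin_cases b <;> simp [mB]
      rw [e]; exact Fall _ _
    · exact absurd rfl hij
  refine SpecialLinearGroup.diagonal_transvection_induction'
    (fun M => τ.κ (M : GL (Fin 3) k) ∈ H) M ?_ htr hmulP
  intro i j hij c hc
  rw [diag_dec hij c hc]
  refine hmulP _ _ (hmulP _ _ (hmulP _ _ (hmulP _ _ (hmulP _ _ ?_ ?_) ?_) ?_) ?_) ?_
  all_goals exact htr _ _ _ _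

end

theorem hTC : StTC := by
  intro n d _ hd T _ τ A Y hA hY H hAH hYH hwH M
  exact tc_general n d hd.2 T τ A Y hA hY H hAH hYH hwH M

end Pool.Agent.Helper95.RK
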